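import Pool.Agent.H24.GS.Stm

set_option autoImplicit false

namespace Pool.Agent.H61.GS

open Complex Set Filter Topology MeasureTheory Metric
open Pool.Agent.H172R3.SM Pool.Agent.H172R3.SM.Config Pool.Agent.H24.GS
open scoped ContDiff Matrix

theorem t_DEG : S_DEG := by
  classical
  intro c h
  by_cases hs : ∃ z, c.phi z = ss
  · obtain ⟨P, Q, a, b, s⟩ := exists_str h hs
    have hset : c.phi ⁻¹' {ss} = (P.toFinset : Set ℂ) := by
      ext z
      simp [s.hP z]
    refine ⟨(Multiset.card P : ℤ), ⟨?_, fun p => (P.count p : ℤ), ?_, ?_⟩, Or.inr ?_⟩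
    · rw [hset]
      exact P.toFinset.finite_toSet
    · intro p hps
      obtain ⟨ρ, hρ, h1⟩ := exists_sep (P.toFinset ∪ Q.toFinset) p
      filter_upwards [Ioo_mem_nhdsGT hρ] with r hr
      have hPr : ∀ q ∈ P, q ≠ p → ρ < ‖q - p‖ := fun q hq =>
        h1 q (Finset.mem_union_left _ (Multiset.mem_toFinset.2 hq))
      have hQr : ∀ q ∈ Q, q ≠ p → ρ < ‖q - p‖ := fun q hq =>
        h1 q (Finset.mem_union_right _ (Multiset.mem_toFinset.2 hq))
      have hpQ : p ∉ Q := fun h0 => by
        have := (s.hQ p).1 h0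
        rw [hps] at this
        exact ss_ne_nn this
      have e1 : ∀ q ∈ P, ‖q - p‖ ≠ r := by
        intro q hq h0
        by_cases hqp : q = p
        · rw [hqp, sub_self, norm_zero] at h0
          linarith [hr.1]
        · have := hPr q hq hqp
          linarith [hr.2]
      have e2 : ∀ q ∈ Q, ‖q - p‖ ≠ r := by
        intro q hq h0
        by_cases hqp : q = p
        · exact hpQ (hqp ▸ hq)
        · have := hQr q hq hqp
          linarith [hr.2]
      have h3 := s.wind_south h hr.1 e1 e2
      rw [cnt_small hr.1 hr.2.le hPr, cnt_small hr.1 hr.2.le hQr,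
        Multiset.count_eq_zero_of_notMem hpQ] at h3
      simpa using h3
    · rw [hset, finsum_mem_coe_finset, ← Nat.cast_sum]
      congr 1
      exact Multiset.toFinset_sum_count_eq P
    · have := s.card_lt h
      have h4 : 2 ≤ Multiset.card P := by omega
      exact_mod_cast h4
  · push Not at hs
    have hset : c.phi ⁻¹' {ss} = ∅ := by
      ext z
      simp [hs z]
    refine ⟨0, ⟨?_, fun _ => 0, fun p hp => absurd hp (hs p), ?_⟩, Or.inl rfl⟩
    · rw [hset]
      exact Set.finite_empty
    · rw [hset]
      simp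

end Pool.Agent.H61.GS
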