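import Pool.Agent.H24.GS.Stm

set_option autoImplicit false

namespace Pool.Agent.H61.GS

open Complex Set Filter Topology MeasureTheory Metric
open Pool.Agent.H172R3.SM Pool.Agent.H172R3.SM.Config Pool.Agent.H24.GS
open scoped ContDiff Matrix

/-- the reflection of the target -/
def rf (x : Fin 3 → ℝ) : Fin 3 → ℝ := ![x 0, - x 1, x 2]

theorem rf_dot (x y : Fin 3 → ℝ) : rf x ⬝ᵥ rf y = x ⬝ᵥ y := by
  simp [rf, dotProduct, Fin.sum_univ_three]

theorem contDiff_comp_apply {f : ℂ → Fin 3 → ℝ} (hf : ContDiff ℝ ∞ f) (i : Fin 3) :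
    ContDiff ℝ ∞ (fun z => f z i) := (contDiff_pi.mp hf) i

theorem contDiff_refl {c : Config} (h : ContDiff ℝ ∞ c.phi) : ContDiff ℝ ∞ (refl c).phi := by
  rw [contDiff_pi]
  intro i
  fin_cases i
  · exact contDiff_comp_apply h 0
  · exact (contDiff_comp_apply h 1).neg
  · exact contDiff_comp_apply h 2

theorem fderiv_apply {f : ℂ → Fin 3 → ℝ} (hf : ContDiff ℝ ∞ f) (z v : ℂ) (i : Fin 3) :
    fderiv ℝ f z v i = fderiv ℝ (fun z => f z i) z v := by
  have h1 : DifferentiableAt ℝ f z := (hf.differentiable (by simp)) z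
  rw [fderiv_pi (fun i => (differentiableAt_pi.mp h1) i)]
  rfl

theorem fderiv_refl {c : Config} (h : ContDiff ℝ ∞ c.phi) (z v : ℂ) :
    fderiv ℝ (refl c).phi z v = rf (fderiv ℝ c.phi z v) := by
  funext i
  rw [fderiv_apply (contDiff_refl h)]
  fin_cases i
  · exact (fderiv_apply h z v 0).symm
  · show fderiv ℝ (fun z => - c.phi z 1) z v = - (fderiv ℝ c.phi z v 1)
    rw [fderiv_apply h z v 1]
    simp [fderiv_fun_neg]
  · exact (fderiv_apply h z v 2).symm

theorem D1_refl {c : Config} (h : ContDiff ℝ ∞ c.phi) (z : ℂ) :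
    (refl c).D1 z = rf (c.D1 z) := by
  unfold Config.D1
  rw [fderiv_refl h]
  funext i
  fin_cases i <;> simp [rf, Pool.Agent.H24.GS.refl, nn, cross_apply] <;> ring

theorem D2_refl {c : Config} (h : ContDiff ℝ ∞ c.phi) (z : ℂ) :
    (refl c).D2 z = rf (c.D2 z) := by
  unfold Config.D2
  rw [fderiv_refl h]
  funext i
  fin_cases i <;> simp [rf, Pool.Agent.H24.GS.refl, nn, cross_apply] <;> ring

theorem F12_refl (c : Config) (z : ℂ) : (refl c).F12 z = - c.F12 z := by
  unfold Config.F12
  have h1 : fderiv ℝ (refl c).A2 z = - fderiv ℝ c.A2 z := by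
    show fderiv ℝ (fun z => - c.A2 z) z = _
    exact fderiv_fun_neg
  have h2 : fderiv ℝ (refl c).A1 z = - fderiv ℝ c.A1 z := by
    show fderiv ℝ (fun z => - c.A1 z) z = _
    exact fderiv_fun_neg
  rw [h1, h2]
  simp
  ring

theorem cross_rf (x y : Fin 3 → ℝ) : rf x ⨯₃ rf y = - rf (x ⨯₃ y) := by
  funext i
  fin_cases i <;> simp [rf, cross_apply] <;> ring

theorem wind_conj {f : ℂ → ℂ} {p : ℂ} {r : ℝ} {m : ℤ} (h : Wind f p r m) :
    Wind (fun z => (starRingEnd ℂ) (f z)) p r (-m) := by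
  obtain ⟨l, hl, h1, h2⟩ := h
  refine ⟨fun θ => (starRingEnd ℂ) (l θ), continuous_conj.comp hl, fun θ => ?_, ?_⟩
  · show (starRingEnd ℂ) (f (circleMap p r θ)) = _
    rw [h1, ← Complex.exp_conj]
  · show (starRingEnd ℂ) (l (2 * Real.pi)) - (starRingEnd ℂ) (l 0) = _
    rw [← map_sub, h2]
    have h3 : (starRingEnd ℂ) 2 = 2 := Complex.conj_ofNat 2
    simp [h3]

theorem t_REF : S_REF := by
  intro c hc h1 h2
  refine ⟨⟨contDiff_refl hc, h1.neg, h2.neg⟩, fun z => rf_dot _ _, ?_, ?_, ?_⟩
  · rintro σ z ⟨h3, h4⟩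
    refine ⟨?_, ?_⟩
    · rw [D1_refl hc, D2_refl hc, h3]
      have h5 : (refl c).phi z = rf (c.phi z) := rfl
      rw [h5, cross_rf]
      funext i
      fin_cases i <;> simp [rf]
    · rw [F12_refl, h4]
      have h5 : nn ⬝ᵥ (refl c).phi z = nn ⬝ᵥ c.phi z := by
        simp [nn, Pool.Agent.H24.GS.refl, dotProduct, Fin.sum_univ_three]
      rw [h5]
      ring
  · intro z
    rw [D1_refl hc, D2_refl hc, F12_refl]
    exact ⟨rf_dot _ _, rf_dot _ _, rfl⟩
  · rintro N ⟨hfin, m, hm, hsum⟩
    have hpre : ∀ p, (refl c).phi p = ss ↔ c.phi p = ss := by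
      intro p
      constructor
      · intro h
        have h0 := congrFun h 0
        have h1 := congrFun h 1
        have h2 := congrFun h 2
        funext i
        fin_cases i
        · simpa [Pool.Agent.H24.GS.refl, ss] using h0
        · simpa [Pool.Agent.H24.GS.refl, ss] using h1
        · simpa [Pool.Agent.H24.GS.refl, ss] using h2
      · intro h
        have h0 := congrFun h 0
        have h1 := congrFun h 1
        have h2 := congrFun h 2
        funext i
        fin_cases i
        · simpa [Pool.Agent.H24.GS.refl, ss] using h0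
        · simpa [Pool.Agent.H24.GS.refl, ss] using h1
        · simpa [Pool.Agent.H24.GS.refl, ss] using h2
    have hset : (refl c).phi ⁻¹' {ss} = c.phi ⁻¹' {ss} := by
      ext p
      exact hpre p
    rw [hset] at hfin hsum
    refine ⟨hfin, fun p => - m p, ?_, ?_⟩
    · intro p hp
      filter_upwards [hm p ((hpre p).mpr hp)] with r hr
      have h5 := wind_conj hr
      have h6 : (fun z => (starRingEnd ℂ) ((refl c).south z)) = c.south := by
        funext z
        apply Complex.ext <;> simp [Config.south, Pool.Agent.H24.GS.refl]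
      rw [h6] at h5
      exact h5
    · rw [← hsum, finsum_mem_neg_distrib]
      exact hfin

end Pool.Agent.H61.GS
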